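import Pool.Agent.Helper93.KP.St

/-!
# Project KP (MP_77e955_nt), module RTS
-/

set_option autoImplicit false

namespace Pool.Agent.Helper24.KP

open Finset Filter Topology Pool.Agent.Helper93.KP

private theorem not_dvd_sub {p a b : ℕ} (ha : a < p) (hb : b < p) (hab : a ≠ b) :
    ¬ (p : ℤ) ∣ (a : ℤ) - b := by
  intro h
  have h1 : |(a : ℤ) - b| < p := by
    rw [abs_lt]
    constructor <;> omega
  have h2 := Int.eq_zero_of_abs_lt_dvd h h1
  omega

private theorem not_dvd_900 {p : ℕ} (hp : p.Prime) (h7 : 7 ≤ p) : ¬ (p : ℤ) ∣ 900 := by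
  intro h
  have h1 : p ∣ 900 := by exact_mod_cast h
  have h2 : (900 : ℕ) = 2 ^ 2 * (3 ^ 2 * 5 ^ 2) := by norm_num
  rw [h2] at h1
  rcases (Nat.Prime.dvd_mul hp).1 h1 with h3 | h3
  · have := Nat.le_of_dvd (by norm_num) (hp.dvd_of_dvd_pow h3)
    omega
  · rcases (Nat.Prime.dvd_mul hp).1 h3 with h4 | h4
    · have := Nat.le_of_dvd (by norm_num) (hp.dvd_of_dvd_pow h4)
      omega
    · have := Nat.le_of_dvd (by norm_num) (hp.dvd_of_dvd_pow h4)
      omega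

private theorem pair {n p a b : ℕ} (hp : p.Prime) (ha : a < p) (hb : b < p) (hab : a ≠ b)
    (h1 : (p : ℤ) ∣ gk n (30 * a)) (h2 : (p : ℤ) ∣ gk n (30 * b)) :
    (p : ℤ) ∣ 30 * (n : ℤ) - 900 * ((a : ℤ) + b) := by
  have h3 : (p : ℤ) ∣ ((a : ℤ) - b) * (30 * (n : ℤ) - 900 * ((a : ℤ) + b)) := by
    have h4 : ((a : ℤ) - b) * (30 * (n : ℤ) - 900 * ((a : ℤ) + b)) =
        gk n (30 * a) - gk n (30 * b) := by
      unfold gk
      push_cast
      ring
    rw [h4]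
    exact dvd_sub h1 h2
  rcases (Nat.prime_iff_prime_int.1 hp).dvd_or_dvd h3 with h4 | h4
  · exact absurd h4 (not_dvd_sub ha hb hab)
  · exact h4

theorem hRTS : StRTS := by
  intro n p hp h7
  unfold rn
  by_contra hc
  rw [not_le, Finset.two_lt_card] at hc
  obtain ⟨a, ha, b, hb, c, hc, hab, hac, hbc⟩ := hc
  rw [mem_filter, mem_range] at ha hb hc
  have h1 := pair hp ha.1 hb.1 hab ha.2 hb.2
  have h2 := pair hp ha.1 hc.1 hac ha.2 hc.2
  have h3 : (p : ℤ) ∣ 900 * ((c : ℤ) - b) := by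
    have h4 := dvd_sub h1 h2
    have h5 : 30 * (n : ℤ) - 900 * ((a : ℤ) + b) - (30 * (n : ℤ) - 900 * ((a : ℤ) + c)) =
        900 * ((c : ℤ) - b) := by ring
    rwa [h5] at h4
  rcases (Nat.prime_iff_prime_int.1 hp).dvd_or_dvd h3 with h4 | h4
  · exact not_dvd_900 hp h7 h4
  · exact not_dvd_sub hc.1 hb.1 (Ne.symm hbc) h4

end Pool.Agent.Helper24.KP
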